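import Pool.Agent.Helper15.T4.Stmts

set_option autoImplicit false
set_option linter.unusedSectionVars false

/-!
MP_e0a484_co: ST_PSIB (bound of the integrand for a partial matching).
-/

open Finset

namespace Pool.Agent.Helper97.T4

open Pool.Agent.Helper15.T4

namespace PB

open Classical in
theorem card_cov {H : Type} [Fintype H] (F : Finset (Sym2 H)) (hF : IsMat F) :
    (cov F).card = 2 * F.card := by
  have h1 : cov F = F.biUnion (fun e => e.toFinset) := by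
    ext h
    simp [cov]
  have hmem : ∀ h, h ∈ cov F ↔ ∃ e ∈ F, h ∈ e := by
    intro h
    simp [cov]
  rw [h1, Finset.card_biUnion, Finset.sum_const_nat (m := 2), mul_comm]
  · intro e he
    exact Sym2.card_toFinset_of_not_isDiag e (hF.1 e he)
  · intro e he e' he' hne
    rw [Function.onFun, Finset.disjoint_left]
    intro h hh hh'
    apply hne
    rw [Sym2.mem_toFinset] at hh hh'
    obtain ⟨e0, _, hu⟩ := hF.2.2 h ((hmem h).2 ⟨e, he, hh⟩)
    rw [hu e ⟨he, hh⟩, hu e' ⟨he', hh'⟩]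

theorem prod_bd {α : Type} (s : Finset α) (f : α → ℝ) (b : ℝ) (h0 : ∀ a ∈ s, 0 ≤ f a)
    (h : ∀ a ∈ s, f a ≤ b) : ∏ a ∈ s, f a ≤ b ^ s.card := by
  rw [← Finset.prod_const]
  exact Finset.prod_le_prod h0 h

variable {L ι : Type} [Fintype L] [Fintype ι]

theorem l_bd (m : Mdl L ι) : ∃ B : ℝ, 1 ≤ B ∧
    ∀ (a : L) (x : ι → ℝ), ‖m.l a x‖ ≤ B * Real.sqrt (nsq x) := by
  refine ⟨1 + ∑ a : L, ∑ i : ι, ‖m.S a i‖, ?_, ?_⟩
  · have : 0 ≤ ∑ a : L, ∑ i : ι, ‖m.S a i‖ := by positivity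
    linarith
  · intro a x
    have h1 : ∀ i, |x i| ≤ Real.sqrt (nsq x) := by
      intro i
      apply Real.abs_le_sqrt
      unfold nsq
      exact Finset.single_le_sum (f := fun i => x i ^ 2) (fun i _ => sq_nonneg _) (Finset.mem_univ i)
    calc ‖m.l a x‖ ≤ ∑ i, ‖m.S a i * (x i : ℂ)‖ := norm_sum_le _ _
      _ ≤ ∑ i, ‖m.S a i‖ * Real.sqrt (nsq x) := by
          apply Finset.sum_le_sum
          intro i _
          rw [norm_mul, Complex.norm_real, Real.norm_eq_abs]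
          exact mul_le_mul_of_nonneg_left (h1 i) (norm_nonneg _)
      _ = (∑ i, ‖m.S a i‖) * Real.sqrt (nsq x) := by rw [Finset.sum_mul]
      _ ≤ _ := by
          apply mul_le_mul_of_nonneg_right _ (Real.sqrt_nonneg _)
          have := Finset.single_le_sum (f := fun a => ∑ i, ‖m.S a i‖)
            (fun a _ => by positivity) (Finset.mem_univ a)
          linarith

theorem w_bd (m : Mdl L ι) : ∃ B : ℝ, 1 ≤ B ∧ ∀ a b c : L, ‖(m.w a b c : ℂ)‖ ≤ B := by
  refine ⟨1 + ∑ p : L × L × L, ‖(m.w p.1 p.2.1 p.2.2 : ℂ)‖, ?_, ?_⟩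
  · have : 0 ≤ ∑ p : L × L × L, ‖(m.w p.1 p.2.1 p.2.2 : ℂ)‖ := by positivity
    linarith
  · intro a b c
    have := Finset.single_le_sum (f := fun p : L × L × L => ‖(m.w p.1 p.2.1 p.2.2 : ℂ)‖)
      (fun a _ => norm_nonneg _) (Finset.mem_univ (a, b, c))
    simp only at this
    linarith

theorem p_bd (m : Mdl L ι) : ∃ B : ℝ, 1 ≤ B ∧ ∀ e : Sym2 L, ‖pairC m.S e‖ ≤ B := by
  classical
  refine ⟨1 + ∑ e : Sym2 L, ‖pairC m.S e‖, ?_, ?_⟩
  · have : 0 ≤ ∑ e : Sym2 L, ‖pairC m.S e‖ := by positivity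
    linarith
  · intro e
    have := Finset.single_le_sum (f := fun e : Sym2 L => ‖pairC m.S e‖)
      (fun a _ => norm_nonneg _) (Finset.mem_univ e)
    linarith

/-- The factor of an untouched vertex. -/
noncomputable def gg (m : Mdl L ι) (x : ι → ℝ) (t : Fin 3 → L) : ℂ :=
  (m.w (t 0) (t 1) (t 2) : ℂ) * (m.l (t 0) x * m.l (t 1) x * m.l (t 2) x)

theorem P_eq (m : Mdl L ι) (x : ι → ℝ) : m.P x = ∑ t : Fin 3 → L, gg m x t := by
  unfold Mdl.P Mdl.T gg
  rw [← (Fin.consEquiv (fun _ : Fin 3 => L)).sum_comp]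
  rw [Fintype.sum_prod_type]
  refine Finset.sum_congr rfl fun a _ => ?_
  rw [← (Fin.consEquiv (fun _ : Fin 2 => L)).sum_comp]
  rw [Fintype.sum_prod_type]
  refine Finset.sum_congr rfl fun b _ => ?_
  rw [← (Fin.consEquiv (fun _ : Fin 1 => L)).sum_comp]
  rw [Fintype.sum_prod_type]
  refine Finset.sum_congr rfl fun c _ => ?_
  rw [Fintype.sum_unique]
  simp only [Fin.consEquiv_apply]
  show _ = (m.w a b c : ℂ) * (m.l a x * m.l b x * m.l c x)
  ring

section Split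

variable {n : ℕ} (A : Finset (Fin n))

/-- Combine labelings of the two parts. -/
def comb (p : ({v // v ∈ A} → Fin 3 → L) × ({v // v ∉ A} → Fin 3 → L)) : HE n → L :=
  fun h => if hv : h.1 ∈ A then p.1 ⟨h.1, hv⟩ h.2 else p.2 ⟨h.1, hv⟩ h.2

/-- The splitting of labelings. -/
def spl : (HE n → L) ≃ ({v // v ∈ A} → Fin 3 → L) × ({v // v ∉ A} → Fin 3 → L) where
  toFun σ := (fun v j => σ (v.1, j), fun v j => σ (v.1, j))
  invFun := comb A
  left_inv σ := by
    funext h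
    unfold comb
    by_cases hv : h.1 ∈ A
    · rw [dif_pos hv]
    · rw [dif_neg hv]
  right_inv p := by
    apply Prod.ext
    · funext v j
      show comb A p (v.1, j) = _
      unfold comb
      rw [dif_pos v.2]
    · funext v j
      show comb A p (v.1, j) = _
      unfold comb
      rw [dif_neg v.2]

theorem comb_in (p : ({v // v ∈ A} → Fin 3 → L) × ({v // v ∉ A} → Fin 3 → L)) (h : HE n)
    (hv : h.1 ∈ A) : comb A p h = p.1 ⟨h.1, hv⟩ h.2 := by
  unfold comb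
  rw [dif_pos hv]

theorem comb_out (p : ({v // v ∈ A} → Fin 3 → L) × ({v // v ∉ A} → Fin 3 → L)) (v : {v // v ∉ A})
    (j : Fin 3) : comb A p (v.1, j) = p.2 v j := by
  unfold comb
  rw [dif_neg v.2]

end Split

open Classical in
/-- The factor of the touched part. -/
noncomputable def GG {n : ℕ} (m : Mdl L ι) (F : Finset (Sym2 (HE n))) (x : ι → ℝ) (σ : HE n → L) : ℂ :=
  (∏ v ∈ tv F, (m.w (σ (v, 0)) (σ (v, 1)) (σ (v, 2)) : ℂ)) * (∏ e ∈ F, pairC m.S (e.map σ)) *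
    ∏ h ∈ (tv F ×ˢ (univ : Finset (Fin 3))) \ cov F, m.l (σ h) x

open Classical in
theorem psi_eq {n : ℕ} (m : Mdl L ι) (F : Finset (Sym2 (HE n))) (x : ι → ℝ) :
    m.Psi F x = ∑ σ : HE n → L, GG m F x σ * ∏ v ∈ (tv F)ᶜ, gg m x (fun j => σ (v, j)) := by
  unfold Mdl.Psi
  refine Finset.sum_congr rfl fun σ _ => ?_
  unfold GG gg
  have h1 : ∏ v, (m.w (σ (v, 0)) (σ (v, 1)) (σ (v, 2)) : ℂ) =
      (∏ v ∈ tv F, (m.w (σ (v, 0)) (σ (v, 1)) (σ (v, 2)) : ℂ)) *
        ∏ v ∈ (tv F)ᶜ, (m.w (σ (v, 0)) (σ (v, 1)) (σ (v, 2)) : ℂ) :=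
    (Finset.prod_mul_prod_compl (tv F) _).symm
  have h2 : (cov F)ᶜ = ((tv F ×ˢ (univ : Finset (Fin 3))) \ cov F) ∪
      ((tv F)ᶜ ×ˢ (univ : Finset (Fin 3))) := by
    ext h
    simp only [mem_compl, mem_union, mem_sdiff, mem_product, mem_univ, and_true]
    constructor
    · intro hh
      by_cases h3 : h.1 ∈ tv F
      · exact Or.inl ⟨h3, hh⟩
      · exact Or.inr h3
    · rintro (hh | hh)
      · exact hh.2
      · intro h3
        exact hh (Finset.mem_image.2 ⟨h, h3, rfl⟩)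
  have h4 : Disjoint ((tv F ×ˢ (univ : Finset (Fin 3))) \ cov F) ((tv F)ᶜ ×ˢ (univ : Finset (Fin 3))) := by
    rw [Finset.disjoint_left]
    intro h hh hh'
    simp only [mem_sdiff, mem_product, mem_univ, and_true, mem_compl] at hh hh'
    exact hh' hh.1
  have h5 : ∏ h ∈ (cov F)ᶜ, m.l (σ h) x =
      (∏ h ∈ (tv F ×ˢ (univ : Finset (Fin 3))) \ cov F, m.l (σ h) x) *
        ∏ v ∈ (tv F)ᶜ, (m.l (σ (v, 0)) x * m.l (σ (v, 1)) x * m.l (σ (v, 2)) x) := by
    rw [h2, Finset.prod_union h4]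
    congr 1
    rw [Finset.prod_product]
    refine Finset.prod_congr rfl fun v _ => ?_
    rw [Fin.prod_univ_three]
  rw [h5, h1]
  simp only [Finset.prod_mul_distrib]
  ring

open Classical in
theorem gg_indep {n : ℕ} (m : Mdl L ι) (F : Finset (Sym2 (HE n))) (x : ι → ℝ) (σ τ : HE n → L)
    (h : ∀ v ∈ tv F, ∀ j, σ (v, j) = τ (v, j)) : GG m F x σ = GG m F x τ := by
  unfold GG
  congr 1
  · congr 1
    · refine Finset.prod_congr rfl fun v hv => ?_
      rw [h v hv, h v hv, h v hv]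
    · refine Finset.prod_congr rfl fun e he => ?_
      have : e.map σ = e.map τ := by
        apply Sym2.map_congr
        intro a ha
        have ha' : a ∈ cov F := by
          simp only [cov, mem_filter, mem_univ, true_and]
          exact ⟨e, he, ha⟩
        exact h a.1 (Finset.mem_image.2 ⟨a, ha', rfl⟩) a.2
      rw [this]
  · refine Finset.prod_congr rfl fun a ha => ?_
    have : σ a = τ a := by
      simp only [mem_sdiff, mem_product, mem_univ, and_true] at ha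
      exact h a.1 ha.1 a.2
    rw [this]

open Classical in
theorem GG_bd {n : ℕ} (m : Mdl L ι) (F : Finset (Sym2 (HE n))) (hF : IsMat F) (x : ι → ℝ)
    (a b c : ℝ) (ha : 1 ≤ a) (hb : 1 ≤ b) (hc : 1 ≤ c) (h1 : ∀ r s t : L, ‖(m.w r s t : ℂ)‖ ≤ a)
    (h2 : ∀ e : Sym2 L, ‖pairC m.S e‖ ≤ b)
    (h3 : ∀ (r : L) (x : ι → ℝ), ‖m.l r x‖ ≤ c * Real.sqrt (nsq x)) (σ : HE n → L) :
    ‖GG m F x σ‖ ≤ (a * b ^ 2 * c ^ 3) ^ ((tv F).card) *
      Real.sqrt (nsq x) ^ (3 * (tv F).card - 2 * F.card) := by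
  have hsub : cov F ⊆ tv F ×ˢ (univ : Finset (Fin 3)) := by
    intro h hh
    rw [Finset.mem_product]
    exact ⟨Finset.mem_image.2 ⟨h, hh, rfl⟩, Finset.mem_univ _⟩
  have hcard : ((tv F ×ˢ (univ : Finset (Fin 3))) \ cov F).card = 3 * (tv F).card - 2 * F.card := by
    rw [Finset.card_sdiff_of_subset hsub, card_cov F hF, Finset.card_product, Finset.card_univ,
      Fintype.card_fin, mul_comm]
  have hle : 2 * F.card ≤ 3 * (tv F).card := by
    have := Finset.card_le_card hsub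
    rw [card_cov F hF, Finset.card_product, Finset.card_univ, Fintype.card_fin] at this
    omega
  unfold GG
  rw [norm_mul, norm_mul, norm_prod, norm_prod, norm_prod]
  have e1 : ∏ v ∈ tv F, ‖(m.w (σ (v, 0)) (σ (v, 1)) (σ (v, 2)) : ℂ)‖ ≤ a ^ (tv F).card := by
    refine prod_bd _ _ _ (fun _ _ => norm_nonneg _) fun v _ => ?_
    exact h1 _ _ _
  have e2 : ∏ e ∈ F, ‖pairC m.S (e.map σ)‖ ≤ b ^ F.card := by
    refine prod_bd _ _ _ (fun _ _ => norm_nonneg _) fun v _ => ?_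
    exact h2 _
  have e3 : ∏ h ∈ (tv F ×ˢ (univ : Finset (Fin 3))) \ cov F, ‖m.l (σ h) x‖ ≤
      (c * Real.sqrt (nsq x)) ^ (3 * (tv F).card - 2 * F.card) := by
    rw [← hcard]
    refine prod_bd _ _ _ (fun _ _ => norm_nonneg _) fun v _ => ?_
    exact h3 _ _
  have p1 : 0 ≤ ∏ v ∈ tv F, ‖(m.w (σ (v, 0)) (σ (v, 1)) (σ (v, 2)) : ℂ)‖ :=
    Finset.prod_nonneg fun _ _ => norm_nonneg _
  have p2 : 0 ≤ ∏ e ∈ F, ‖pairC m.S (e.map σ)‖ := Finset.prod_nonneg fun _ _ => norm_nonneg _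
  have p3 : 0 ≤ ∏ h ∈ (tv F ×ˢ (univ : Finset (Fin 3))) \ cov F, ‖m.l (σ h) x‖ :=
    Finset.prod_nonneg fun _ _ => norm_nonneg _
  have q2 : b ^ F.card ≤ (b ^ 2) ^ (tv F).card := by
    rw [← pow_mul]
    exact pow_le_pow_right₀ hb (by omega)
  have q3 : (c * Real.sqrt (nsq x)) ^ (3 * (tv F).card - 2 * F.card) ≤
      (c ^ 3) ^ (tv F).card * Real.sqrt (nsq x) ^ (3 * (tv F).card - 2 * F.card) := by
    rw [mul_pow, ← pow_mul]
    apply mul_le_mul_of_nonneg_right _ (pow_nonneg (Real.sqrt_nonneg _) _)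
    exact pow_le_pow_right₀ hc (by omega)
  have ha0 : 0 ≤ a := by linarith
  have hb0 : 0 ≤ b := by linarith
  have hc0 : 0 ≤ c := by linarith
  calc _ ≤ a ^ (tv F).card * (b ^ 2) ^ (tv F).card *
        ((c ^ 3) ^ (tv F).card * Real.sqrt (nsq x) ^ (3 * (tv F).card - 2 * F.card)) := by
        apply mul_le_mul (mul_le_mul e1 (e2.trans q2) p2 (by positivity)) (e3.trans q3) p3 (by positivity)
    _ = _ := by rw [mul_pow, mul_pow]; ring

open Classical in
theorem main {n : ℕ} (m : Mdl L ι) (F : Finset (Sym2 (HE n))) (x : ι → ℝ)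
    (K0 : ℝ) (h : ∀ σ : HE n → L, ‖GG m F x σ‖ ≤ K0 ^ ((tv F).card) *
      Real.sqrt (nsq x) ^ (3 * (tv F).card - 2 * F.card)) (hK : 0 ≤ K0) :
    ‖m.Psi F x‖ ≤ ‖m.P x‖ ^ (n - (tv F).card) * ((Fintype.card L : ℝ) ^ 3 * K0) ^ ((tv F).card) *
      Real.sqrt (nsq x) ^ (3 * (tv F).card - 2 * F.card) := by
  rw [psi_eq, ← (spl (L := L) (tv F)).symm.sum_comp, Fintype.sum_prod_type]
  set B : ℝ := K0 ^ ((tv F).card) * Real.sqrt (nsq x) ^ (3 * (tv F).card - 2 * F.card) with hB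
  have hB0 : 0 ≤ B := by positivity
  have key : ∀ p : {v // v ∈ tv F} → Fin 3 → L,
      ‖∑ q : {v // v ∉ tv F} → Fin 3 → L, GG m F x ((spl (tv F)).symm (p, q)) *
        ∏ v ∈ (tv F)ᶜ, gg m x (fun j => (spl (tv F)).symm (p, q) (v, j))‖ ≤
      B * ‖m.P x‖ ^ (n - (tv F).card) := by
    intro p
    rcases isEmpty_or_nonempty ({v // v ∉ tv F} → Fin 3 → L) with hE | ⟨⟨q0⟩⟩
    · rw [Fintype.sum_empty, norm_zero]
      positivity
    · have e1 : ∀ q : {v // v ∉ tv F} → Fin 3 → L, GG m F x ((spl (tv F)).symm (p, q)) *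
          ∏ v ∈ (tv F)ᶜ, gg m x (fun j => (spl (tv F)).symm (p, q) (v, j)) =
          GG m F x ((spl (tv F)).symm (p, q0)) * ∏ v : {v // v ∉ tv F}, gg m x (q v) := by
        intro q
        congr 1
        · apply gg_indep
          intro v hv j
          show comb (tv F) (p, q) (v, j) = comb (tv F) (p, q0) (v, j)
          rw [comb_in (tv F) (p, q) (v, j) hv, comb_in (tv F) (p, q0) (v, j) hv]
        · rw [Finset.prod_subtype (tv F)ᶜ (p := fun v => v ∉ tv F) (fun v => by simp)]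
          refine Finset.prod_congr rfl fun v _ => ?_
          congr 1
          funext j
          exact comb_out (tv F) (p, q) v j
      rw [Finset.sum_congr rfl fun q _ => e1 q, ← Finset.mul_sum, norm_mul]
      have e2 : ∑ q : {v // v ∉ tv F} → Fin 3 → L, ∏ v : {v // v ∉ tv F}, gg m x (q v) =
          m.P x ^ (n - (tv F).card) := by
        rw [P_eq]
        have e3 := (Finset.prod_univ_sum (fun _ : {v // v ∉ tv F} => (univ : Finset (Fin 3 → L)))
          (fun _ t => gg m x t)).symm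
        rw [Fintype.piFinset_univ] at e3
        rw [e3, Finset.prod_const, Finset.card_univ]
        congr 1
        rw [Fintype.card_subtype_compl, Fintype.card_fin, Fintype.card_coe]
      rw [e2, norm_pow]
      exact mul_le_mul_of_nonneg_right (h _) (pow_nonneg (norm_nonneg _) _)
  calc _ ≤ ∑ p : {v // v ∈ tv F} → Fin 3 → L, B * ‖m.P x‖ ^ (n - (tv F).card) :=
        (norm_sum_le _ _).trans (Finset.sum_le_sum fun p _ => key p)
    _ = ((Fintype.card L : ℝ) ^ 3) ^ ((tv F).card) * (B * ‖m.P x‖ ^ (n - (tv F).card)) := by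
        rw [Finset.sum_const, Finset.card_univ, nsmul_eq_mul]
        congr 1
        rw [Fintype.card_fun, Fintype.card_fun, Fintype.card_fin, Fintype.card_coe]
        push_cast
        ring
    _ = _ := by rw [hB, mul_pow]; ring

end PB

theorem PSIB : ST_PSIB := by
  intro L ι _ _ m
  obtain ⟨a, ha, h1⟩ := PB.w_bd m
  obtain ⟨b, hb, h2⟩ := PB.p_bd m
  obtain ⟨c, hc, h3⟩ := PB.l_bd m
  have ha0 : 0 ≤ a := by linarith
  have hb0 : 0 ≤ b := by linarith
  have hc0 : 0 ≤ c := by linarith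
  have hL : (0 : ℝ) ≤ Fintype.card L := Nat.cast_nonneg _
  have hKK : (0 : ℝ) ≤ (Fintype.card L : ℝ) ^ 3 * (a * b ^ 2 * c ^ 3) := by positivity
  refine ⟨1 + (Fintype.card L : ℝ) ^ 3 * (a * b ^ 2 * c ^ 3), by linarith, ?_⟩
  intro n F x hF
  refine (PB.main m F x (a * b ^ 2 * c ^ 3)
    (PB.GG_bd m F hF x a b c ha hb hc h1 h2 h3) (by positivity)).trans ?_
  apply mul_le_mul_of_nonneg_right _ (pow_nonneg (Real.sqrt_nonneg _) _)
  apply mul_le_mul_of_nonneg_left _ (pow_nonneg (norm_nonneg _) _)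
  exact pow_le_pow_left₀ hKK (by linarith) _

end Pool.Agent.Helper97.T4
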