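import Pool.Agent.Helper15.T4.Stmts

set_option autoImplicit false

/-!
MP_e0a484_co: ST_DIAG (explicit diagonalisation of the transfer matrix).
-/

open Finset

namespace Pool.Agent.Helper97.T4

open Pool.Agent.Helper15.T4

namespace DG

def Ta : Fin 12 → Fin 12 → ℤ :=
  ![![1, 1, 1, 1, -2, 1, -1, -1, 1, -1, -1, 0],
    ![1, -1, 0, -1, -1, -1, 1, -2, 0, -1, -1, 1],
    ![1, 0, -1, -1, -1, 0, -1, -1, -1, 1, -2, -1],
    ![1, 1, 1, -1, 2, -1, -2, 1, -1, -2, 1, 0],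
    ![1, 0, -1, 1, 1, 1, 2, -1, 0, 0, 0, 0],
    ![1, -1, 0, 1, 1, 0, 0, 0, 1, 2, -1, 0],
    ![1, -1, 0, -2, 1, 1, -1, 2, 0, -2, 1, -1],
    ![1, 0, -1, 2, -1, -1, 1, 1, 0, 0, 0, 0],
    ![1, 1, 1, 0, 0, 0, 1, 1, 0, 2, -1, 1],
    ![1, 0, -1, -2, 1, 0, -2, 1, 1, -1, 2, 1],
    ![1, -1, 0, 2, -1, 0, 0, 0, -1, 1, 1, 0],
    ![1, 1, 1, 0, 0, 0, 2, -1, 0, 1, 1, -1]]

def Tb : Fin 12 → Fin 12 → ℤ :=
  ![![0, 0, 0, 4, -4, 0, 0, 0, 0, 0, 0, 0],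
    ![0, 0, 0, 0, 0, 0, 4, -4, 0, 0, 0, 0],
    ![0, 0, 0, 0, 0, 0, 0, 0, 0, 4, -4, 0],
    ![0, 0, 0, -4, 4, 0, -4, 4, 0, -4, 4, 0],
    ![0, 0, 0, 0, 0, 0, 4, -4, 0, 0, 0, 0],
    ![0, 0, 0, 0, 0, 0, 0, 0, 0, 4, -4, 0],
    ![0, 0, 0, -4, 4, 0, -4, 4, 0, -4, 4, 0],
    ![0, 0, 0, 4, -4, 0, 0, 0, 0, 0, 0, 0],
    ![0, 0, 0, 0, 0, 0, 0, 0, 0, 4, -4, 0],
    ![0, 0, 0, -4, 4, 0, -4, 4, 0, -4, 4, 0],
    ![0, 0, 0, 4, -4, 0, 0, 0, 0, 0, 0, 0],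
    ![0, 0, 0, 0, 0, 0, 4, -4, 0, 0, 0, 0]]

def Ua : Fin 12 → Fin 12 → ℤ :=
  ![![14, 14, 14, 14, 14, 14, 14, 14, 14, 14, 14, 14],
    ![14, -28, 14, 14, 14, -28, -28, 14, 14, 14, -28, 14],
    ![14, 14, -28, 14, -28, 14, 14, -28, 14, -28, 14, 14],
    ![-18, -6, -6, 30, 30, 30, -6, -18, -6, -6, -18, -6],
    ![18, -15, -15, 12, 12, 12, -15, 18, -15, -15, 18, -15],
    ![21, -21, 0, -21, 42, -21, 21, -42, 21, 0, 21, -21],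
    ![-6, -18, -6, -6, -18, -6, 30, 30, 30, -6, -6, -18],
    ![-15, 18, -15, -15, 18, -15, 12, 12, 12, -15, -15, 18],
    ![21, 0, -21, -21, -21, 42, 0, 21, -21, 21, -42, 21],
    ![-6, -6, -18, -6, -6, -18, -6, -6, -18, 30, 30, 30],
    ![-15, -15, 18, -15, -15, 18, -15, -15, 18, 12, 12, 12],
    ![0, 21, -21, 0, 21, -21, -21, -21, 42, 21, 21, -42]]

def Ub : Fin 12 → Fin 12 → ℤ :=
  ![![0, 0, 0, 0, 0, 0, 0, 0, 0, 0, 0, 0],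
    ![0, 0, 0, 0, 0, 0, 0, 0, 0, 0, 0, 0],
    ![0, 0, 0, 0, 0, 0, 0, 0, 0, 0, 0, 0],
    ![-48, 12, 12, 24, 24, 24, 12, -48, 12, 12, -48, 12],
    ![48, -12, -12, -24, -24, -24, -12, 48, -12, -12, 48, -12],
    ![0, 0, 0, 0, 0, 0, 0, 0, 0, 0, 0, 0],
    ![12, -48, 12, 12, -48, 12, 24, 24, 24, 12, 12, -48],
    ![-12, 48, -12, -12, 48, -12, -24, -24, -24, -12, -12, 48],
    ![0, 0, 0, 0, 0, 0, 0, 0, 0, 0, 0, 0],
    ![12, 12, -48, 12, 12, -48, 12, 12, -48, 24, 24, 24],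
    ![-12, -12, 48, -12, -12, 48, -12, -12, 48, -24, -24, -24],
    ![0, 0, 0, 0, 0, 0, 0, 0, 0, 0, 0, 0]]

def Bz : Fin 12 → Fin 12 → ℤ :=
  ![![0, 0, 0, 0, 0, 0, 1, 0, 1, 1, 0, 1],
    ![0, 0, 0, 1, 0, 1, 0, 0, 0, 1, 1, 0],
    ![0, 0, 0, 1, 1, 0, 1, 1, 0, 0, 0, 0],
    ![0, 0, 0, 0, 0, 0, 0, 1, 1, 0, 1, 1],
    ![1, 0, 1, 0, 0, 0, 0, 0, 0, 1, 1, 0],
    ![1, 1, 0, 0, 0, 0, 1, 1, 0, 0, 0, 0],
    ![0, 0, 0, 0, 1, 1, 0, 0, 0, 0, 1, 1],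
    ![0, 1, 1, 0, 0, 0, 0, 0, 0, 1, 0, 1],
    ![1, 1, 0, 1, 1, 0, 0, 0, 0, 0, 0, 0],
    ![0, 0, 0, 0, 1, 1, 0, 1, 1, 0, 0, 0],
    ![0, 1, 1, 0, 0, 0, 1, 0, 1, 0, 0, 0],
    ![1, 0, 1, 1, 0, 1, 0, 0, 0, 0, 0, 0]]

def ea : Fin 12 → ℤ := ![4, 1, 1, 0, -3, 1, 0, -3, 1, 0, -3, 1]

def eb : Fin 12 → ℤ := ![0, 0, 0, 1, -1, 0, 1, -1, 0, 1, -1, 0]


/-- Index of a label. -/
def ix (a : L1) : Fin 12 := ⟨3 * a.1.val + a.2.val, by omega⟩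

/-- The matrix T. -/
noncomputable def TT : Matrix L1 L1 ℂ := fun a b => (Ta (ix a) (ix b) : ℂ) + (Tb (ix a) (ix b) : ℂ) * nu

/-- Its inverse. -/
noncomputable def UU : Matrix L1 L1 ℂ := fun a b =>
  ((Ua (ix a) (ix b) : ℂ) + (Ub (ix a) (ix b) : ℂ) * nu) / 168

theorem i1 : ∀ a b : L1, ∑ k : L1, (4 * (Ua (ix a) (ix k) * Ta (ix k) (ix b)) -
    Ub (ix a) (ix k) * Tb (ix k) (ix b)) = if a = b then 672 else 0 := by decide +kernel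

theorem i2 : ∀ a b : L1, ∑ k : L1, (4 * (Ua (ix a) (ix k) * Tb (ix k) (ix b)) +
    4 * (Ub (ix a) (ix k) * Ta (ix k) (ix b)) - 3 * (Ub (ix a) (ix k) * Tb (ix k) (ix b))) = 0 := by
  decide +kernel

theorem i3 : ∀ a b : L1, ∑ k : L1, Bz (ix a) (ix k) * Ta (ix k) (ix b) =
    Ta (ix a) (ix b) * ea (ix b) - Tb (ix a) (ix b) * eb (ix b) := by decide +kernel

theorem i4 : ∀ a b : L1, ∑ k : L1, Bz (ix a) (ix k) * Tb (ix k) (ix b) =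
    4 * (Ta (ix a) (ix b) * eb (ix b)) + Tb (ix a) (ix b) * ea (ix b) -
      3 * (Tb (ix a) (ix b) * eb (ix b)) := by decide +kernel

theorem i5 : ∀ b : L1, ∑ k : L1, Ta (ix k) (ix b) = if b = (0, 0) then 12 else 0 := by decide +kernel

theorem i6 : ∀ b : L1, ∑ k : L1, Tb (ix k) (ix b) = 0 := by decide +kernel

theorem i7 : ∀ a : L1, ∑ k : L1, Ua (ix a) (ix k) = if a = (0, 0) then 168 else 0 := by decide +kernel

theorem i8 : ∀ a : L1, ∑ k : L1, Ub (ix a) (ix k) = 0 := by decide +kernel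

theorem i9 : ∀ a b : L1, Bz (ix a) (ix b) =
    if b.1 ≠ a.1 ∧ b.1 ≠ a.1.succAbove a.2 ∧ b.1.succAbove b.2 ≠ a.1.succAbove a.2 then 1 else 0 := by
  decide +kernel

theorem nu2 : nu ^ 2 = -(3 / 4) * nu - 1 / 4 := by
  have h7 : ((Real.sqrt 7 : ℝ) : ℂ) ^ 2 = 7 := by
    rw [← Complex.ofReal_pow, Real.sq_sqrt (by norm_num)]; norm_num
  have hI : Complex.I ^ 2 = -1 := Complex.I_sq
  unfold nu
  have e : ((-3 + Complex.I * (Real.sqrt 7 : ℂ)) / 8) ^ 2 =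
      (9 - 6 * (Complex.I * (Real.sqrt 7 : ℂ)) + Complex.I ^ 2 * (Real.sqrt 7 : ℂ) ^ 2) / 64 := by ring
  rw [e, h7, hI]
  ring

theorem nuc : (starRingEnd ℂ) nu = -(3 / 4) - nu := by
  unfold nu
  simp only [map_div₀, map_add, map_mul, Complex.conj_I, Complex.conj_ofReal, map_neg, map_ofNat]
  ring

theorem evf : ∀ a : L1, ev a = ((ea (ix a) : ℂ) + 4 * (eb (ix a) : ℂ) * nu) / 4 := by
  have key : ∀ a : L1, (a = (0, 0) ∧ ea (ix a) = 4 ∧ eb (ix a) = 0) ∨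
      (a ≠ (0, 0) ∧ a.2 = 0 ∧ ea (ix a) = 0 ∧ eb (ix a) = 1) ∨
      (a ≠ (0, 0) ∧ a.2 ≠ 0 ∧ (a.2 = 1 ∧ a.1 ≠ 0) ∧ ea (ix a) = -3 ∧ eb (ix a) = -1) ∨
      (a ≠ (0, 0) ∧ a.2 ≠ 0 ∧ ¬ (a.2 = 1 ∧ a.1 ≠ 0) ∧ ea (ix a) = 1 ∧ eb (ix a) = 0) := by
    decide +kernel
  intro a
  unfold ev
  rcases key a with ⟨h1, h2, h3⟩ | ⟨h1, h2, h3, h4⟩ | ⟨h1, h2, h3, h4, h5⟩ | ⟨h1, h2, h3, h4, h5⟩
  · rw [if_pos h1, h2, h3]; norm_num
  · rw [if_neg h1, if_pos h2, h3, h4]; push_cast; ring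
  · rw [if_neg h1, if_neg h2, if_pos h3, h4, h5, nuc]; push_cast; ring
  · rw [if_neg h1, if_neg h2, if_neg h3, h4, h5]; push_cast; ring

theorem UT : UU * TT = 1 := by
  ext a b
  rw [Matrix.mul_apply]
  have e : ∀ k : L1, UU a k * TT k b =
      ((4 * (Ua (ix a) (ix k) * Ta (ix k) (ix b)) - Ub (ix a) (ix k) * Tb (ix k) (ix b) : ℤ) : ℂ) / 672 +
      ((4 * (Ua (ix a) (ix k) * Tb (ix k) (ix b)) + 4 * (Ub (ix a) (ix k) * Ta (ix k) (ix b)) -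
        3 * (Ub (ix a) (ix k) * Tb (ix k) (ix b)) : ℤ) : ℂ) * (nu / 672) := by
    intro k
    simp only [UU, TT]
    push_cast
    have := nu2
    linear_combination ((Ub (ix a) (ix k) : ℂ) * (Tb (ix k) (ix b) : ℂ) / 168) * this
  rw [Finset.sum_congr rfl fun k _ => e k, Finset.sum_add_distrib, ← Finset.sum_div, ← Finset.sum_mul,
    ← Int.cast_sum, ← Int.cast_sum, i1, i2]
  by_cases h : a = b
  · rw [if_pos h, h, Matrix.one_apply_eq]; norm_num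
  · rw [if_neg h, Matrix.one_apply_ne h]; norm_num

theorem TU : TT * UU = 1 := mul_eq_one_comm.mp UT

theorem BT : B1 * TT = TT * Matrix.diagonal ev := by
  ext a b
  rw [Matrix.mul_apply, Matrix.mul_diagonal]
  have hB : ∀ k : L1, B1 a k = ((Bz (ix a) (ix k) : ℤ) : ℂ) / 4 := by
    intro k
    rw [i9]
    unfold B1 vc
    by_cases h : k.1 ≠ a.1 ∧ k.1 ≠ a.1.succAbove a.2 ∧ k.1.succAbove k.2 ≠ a.1.succAbove a.2
    · rw [if_pos h, if_pos h]; norm_num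
    · rw [if_neg h, if_neg h]; norm_num
  have e : ∀ k : L1, B1 a k * TT k b =
      ((Bz (ix a) (ix k) * Ta (ix k) (ix b) : ℤ) : ℂ) / 4 +
      ((Bz (ix a) (ix k) * Tb (ix k) (ix b) : ℤ) : ℂ) * (nu / 4) := by
    intro k
    rw [hB]
    simp only [TT]
    push_cast
    ring
  rw [Finset.sum_congr rfl fun k _ => e k, Finset.sum_add_distrib, ← Finset.sum_div, ← Finset.sum_mul,
    ← Int.cast_sum, ← Int.cast_sum, i3, i4, evf]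
  simp only [TT]
  push_cast
  have := nu2
  linear_combination (-(Tb (ix a) (ix b) : ℂ) * (eb (ix b) : ℂ)) * this

theorem JT : UU * (Matrix.of fun _ _ => (1 / 12 : ℂ)) * TT =
    Matrix.diagonal (fun a => if a = (0, 0) then 1 else 0) := by
  rw [Matrix.mul_assoc]
  have h1 : ∀ k b : L1, ((Matrix.of fun _ _ => (1 / 12 : ℂ)) * TT : Matrix L1 L1 ℂ) k b =
      if b = (0, 0) then 1 else 0 := by
    intro k b
    rw [Matrix.mul_apply]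
    simp only [Matrix.of_apply, TT]
    have e : ∀ j : L1, (1 / 12 : ℂ) * ((Ta (ix j) (ix b) : ℂ) + (Tb (ix j) (ix b) : ℂ) * nu) =
        ((Ta (ix j) (ix b) : ℤ) : ℂ) / 12 + ((Tb (ix j) (ix b) : ℤ) : ℂ) * (nu / 12) := by
      intro j; ring
    rw [Finset.sum_congr rfl fun k _ => e k, Finset.sum_add_distrib, ← Finset.sum_div, ← Finset.sum_mul,
      ← Int.cast_sum, ← Int.cast_sum, i5, i6]
    by_cases h : b = (0, 0)
    · rw [if_pos h, if_pos h]; norm_num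
    · rw [if_neg h, if_neg h]; norm_num
  ext a b
  rw [Matrix.mul_apply]
  simp only [h1]
  by_cases hb : b = (0, 0)
  · simp only [if_pos hb, mul_one]
    have e : ∀ k : L1, UU a k = ((Ua (ix a) (ix k) : ℤ) : ℂ) / 168 +
        ((Ub (ix a) (ix k) : ℤ) : ℂ) * (nu / 168) := by
      intro k; simp only [UU]; ring
    rw [Finset.sum_congr rfl fun k _ => e k, Finset.sum_add_distrib, ← Finset.sum_div, ← Finset.sum_mul,
      ← Int.cast_sum, ← Int.cast_sum, i7, i8]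
    by_cases ha : a = (0, 0)
    · rw [ha, hb, if_pos rfl, Matrix.diagonal_apply_eq, if_pos rfl]; norm_num
    · rw [if_neg ha, Matrix.diagonal_apply_ne _ (by rw [hb]; exact ha)]; norm_num
  · simp only [if_neg hb, mul_zero, Finset.sum_const_zero]
    by_cases hab : a = b
    · rw [hab, Matrix.diagonal_apply_eq, if_neg hb]
    · rw [Matrix.diagonal_apply_ne _ hab]

end DG

theorem DIAG : ST_DIAG := by
  refine ⟨DG.TT, DG.UU, DG.TU, DG.UT, ?_, DG.JT⟩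
  rw [Matrix.mul_assoc, DG.BT, ← Matrix.mul_assoc, DG.UT, Matrix.one_mul]

end Pool.Agent.Helper97.T4
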